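import Pool.Agent.H82.EUC.Stmts5

set_option autoImplicit false

namespace Pool.EUC

theorem bkc_thm (hBKI : BKI_S) : BKC_S := by
  intro B _ R dM dW hM hW h σ hσ
  have hI := hBKI B R dM dW hM hW h σ hσ
  have key : ∀ b : B, (σ (b, true) = (b, false) ∧ σ (b, false) = (b, true)) ∨
      (σ (b, true) = (b, true) ∧ σ (b, false) = (b, false)) := by
    intro b
    have ht : σ (b, true) = (b, (σ (b, true)).2) := Prod.ext (hI (b, true)) rfl
    have hf : σ (b, false) = (b, (σ (b, false)).2) := Prod.ext (hI (b, false)) rfl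
    have hne : (σ (b, true)).2 ≠ (σ (b, false)).2 := by
      intro h3
      have h4 : σ (b, true) = σ (b, false) := by rw [ht, hf, h3]
      have h5 := σ.injective h4
      simp at h5
    generalize (σ (b, true)).2 = x at ht hne
    generalize (σ (b, false)).2 = y at hf hne
    cases x <;> cases y
    · exact absurd rfl hne
    · exact Or.inl ⟨ht, hf⟩
    · exact Or.inr ⟨ht, hf⟩
    · exact absurd rfl hne
  have hin : ∀ b, σ (b, true) = (b, false) → ∀ i, σ (b, i) = (b, !i) := by
    intro b hb i
    rcases key b with ⟨h1, h2⟩ | ⟨h1, h2⟩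
    · cases i
      · exact h2
      · exact h1
    · rw [h1] at hb
      simp at hb
  have hout : ∀ b, σ (b, true) ≠ (b, false) → ∀ i, σ (b, i) = (b, i) := by
    intro b hb i
    rcases key b with ⟨h1, h2⟩ | ⟨h1, h2⟩
    · exact absurd h1 hb
    · cases i
      · exact h2
      · exact h1
  refine ⟨{b | σ (b, true) = (b, false)}, ?_, ?_⟩
  · intro b c hR hb
    by_contra hc
    obtain ⟨-, i, j, h1, h2⟩ := h.ex b c hR
    apply hσ (b, i) (c, j)
    have hs : σ.symm (c, j) = (c, j) := by
      rw [Equiv.symm_apply_eq, hout c hc j]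
    rw [hin b hb i, hs]
    exact ⟨h1, h2⟩
  · apply Equiv.ext
    rintro ⟨b, i⟩
    by_cases hb : σ (b, true) = (b, false)
    · rw [hin b hb i]
      simp [sg, hb]
    · rw [hout b hb i]
      simp [sg, hb]

end Pool.EUC
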