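import Pool.Agent.H82.EUC.Stmts5

set_option autoImplicit false

namespace Pool.EUC

theorem bki_thm (hBKO : BKO_S) : BKI_S := by
  intro B _ R dM dW hM hW h σ hσ
  obtain ⟨hoM, hoW⟩ := hBKO B R dM dW hM hW h σ hσ
  obtain ⟨rk, hrk⟩ := h.rk
  have main : ∀ n b, rk b < n → ∀ i, (σ (b, i)).1 = b := by
    intro n
    induction n with
    | zero => intro b hb; exact absurd hb (Nat.not_lt_zero _)
    | succ n ih =>
      intro b hb i
      by_contra hcon
      generalize hcj : σ (b, i) = z at hcon
      obtain ⟨c, j⟩ := z
      have hbc : b ≠ c := fun h1 => hcon h1.symm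
      have h1 := (hoM (b, i)).2
      have h2 := (hoW (c, j)).2
      have hs : σ.symm (c, j) = (b, i) := by rw [← hcj, Equiv.symm_apply_apply]
      rw [hcj] at h1
      rw [hs] at h2
      have hR := (h.crs b c i j hbc h1 h2).1
      have hlt := hrk b c hR
      have hc := ih c (by omega)
      have ht : σ (c, true) = (c, (σ (c, true)).2) := Prod.ext (hc true) rfl
      have hf : σ (c, false) = (c, (σ (c, false)).2) := Prod.ext (hc false) rfl
      have hne : (σ (c, true)).2 ≠ (σ (c, false)).2 := by
        intro h3
        have h4 : σ (c, true) = σ (c, false) := by rw [ht, hf, h3]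
        have h5 := σ.injective h4
        simp at h5
      have hj : j = (σ (c, true)).2 ∨ j = (σ (c, false)).2 := by
        revert hne
        cases j <;> cases (σ (c, true)).2 <;> cases (σ (c, false)).2 <;> simp
      rcases hj with hj | hj
      · have h6 : σ (b, i) = σ (c, true) := by rw [hcj, ht, hj]
        exact hbc (congrArg Prod.fst (σ.injective h6))
      · have h6 : σ (b, i) = σ (c, false) := by rw [hcj, hf, hj]
        exact hbc (congrArg Prod.fst (σ.injective h6))
  rintro ⟨b, i⟩
  exact main (rk b + 1) b (Nat.lt_succ_self _) i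

end Pool.EUC
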