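import Pool.Agent.H82.EUC.Stmts5

set_option autoImplicit false

namespace Pool.EUC

theorem bko_min {A : Type} [Finite A] (P : A → Prop) (f : A → ℝ)
    (h : ∀ a, P a → ∃ b, P b ∧ f b < f a) : ∀ a, ¬ P a := by
  intro a ha
  obtain ⟨m, hm, hmin⟩ := Set.exists_min_image {a | P a} f (Set.toFinite _) ⟨a, ha⟩
  obtain ⟨b, hb, hlt⟩ := h m hm
  exact absurd (hmin b hb) (not_le.mpr hlt)

theorem bko_thm (hMET : MET_S) (hJET : JET_S) (hBKS : BKS_S) : BKO_S := by
  intro B _ R dM dW hM hW h σ hσ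
  obtain ⟨potM, hpM⟩ := h.pM
  obtain ⟨potW, hpW⟩ := h.pW
  have h0 : ∀ z : B × Bool, sg (∅ : Set B) z = z := by
    rintro ⟨b, i⟩
    simp [sg]
  have h0s : ∀ z : B × Bool, (sg (∅ : Set B)).symm z = z := by
    intro z
    rw [Equiv.symm_apply_eq, h0]
  have h1 : ∀ z : B × Bool, sg (Set.univ : Set B) z = (z.1, !z.2) := by
    rintro ⟨b, i⟩
    simp [sg]
  have h1s : ∀ z : B × Bool, (sg (Set.univ : Set B)).symm z = (z.1, !z.2) := by
    rintro ⟨b, i⟩
    rw [Equiv.symm_apply_eq, h1]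
    simp
  obtain ⟨ρ, -, hρW, hρM⟩ := hMET (B × Bool) dM dW hM hW σ (sg ∅) hσ
    (hBKS B R dM dW h ∅ (fun b c _ hb => hb.elim))
  have hρ1 : ∀ m, ρ m = m := by
    intro m
    by_contra hcon
    refine bko_min (fun m => ρ m ≠ m) potM ?_ m hcon
    intro m hm
    refine ⟨ρ m, fun h2 => hm (ρ.injective h2), hpM m (ρ m) ?_⟩
    have h3 := hρM m
    rw [h0] at h3
    exact lt_of_le_of_ne (h3 ▸ min_le_right _ _) (fun h3 => hm (hM m h3))
  have hρ1s : ∀ w, ρ.symm w = w := by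
    intro w
    rw [Equiv.symm_apply_eq, hρ1]
  obtain ⟨κ, -, hκW, hκM⟩ := hJET (B × Bool) dM dW hM hW σ (sg Set.univ) hσ
    (hBKS B R dM dW h Set.univ (fun b c _ _ => Set.mem_univ c))
  have hκ1s : ∀ w, κ.symm w = (w.1, !w.2) := by
    intro w
    by_contra hcon
    refine bko_min (fun w => κ.symm w ≠ (w.1, !w.2)) (fun w => potW (w.1, !w.2)) ?_ w hcon
    intro w hw
    refine ⟨((κ.symm w).1, !(κ.symm w).2), ?_, ?_⟩
    · intro h2
      simp only [Bool.not_not, Prod.mk.eta] at h2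
      have h4 := κ.symm.injective h2
      apply hw
      have h5 : (w.1, !w.2) = κ.symm w := by
        rw [← h4]
        simp only [Bool.not_not, Prod.mk.eta]
        rw [h4]
      exact h5.symm
    · simp only [Bool.not_not, Prod.mk.eta]
      apply hpW w (κ.symm w)
      have h3 := hκW w
      rw [h1s] at h3
      exact lt_of_le_of_ne (h3 ▸ min_le_right _ _) (fun h3 => hw (hW w h3))
  have hκ1 : ∀ m, κ m = (m.1, !m.2) := by
    intro m
    rw [← Equiv.eq_symm_apply, hκ1s]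
    simp
  refine ⟨fun m => ⟨?_, ?_⟩, fun w => ⟨?_, ?_⟩⟩
  · have h3 := hρM m
    rw [h0, hρ1] at h3
    rw [h3]
    exact min_le_left _ _
  · have h3 := hκM m
    rw [h1, hκ1] at h3
    rw [h3]
    exact le_max_left _ _
  · have h3 := hκW w
    rw [h1s, hκ1s] at h3
    rw [h3]
    exact min_le_left _ _
  · have h3 := hρW w
    rw [h0s, hρ1s] at h3
    rw [h3]
    exact le_max_left _ _

end Pool.EUC
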